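import Pool.Agent.SC7292.Defs
import Pool.Agent.SC7292.Model

namespace Pool.Agent.Results.MP_7292ca_lc.AllSingular

open Pool.Agent.Lib.Forcing Pool.Agent.MP_7b2404_lc Pool.Agent.SC7292

/-- From unboundedly many supercompact cardinals: a model of ZF in which every uncountable
cardinal is singular and `κ⁺⁺` injects into `P(κ)` for every infinite cardinal `κ`. -/
theorem result (H : ∀ c : Cardinal.{0}, ∃ κ, c < κ ∧ Supercompact κ) :
    ∃ (M : Type 2) (E : M → M → Prop), ZF E ∧
      (∀ w k, Om E w → Card E k → E w k → Sing E k) ∧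
      ∀ w k, Om E w → InfCard E w k →
        ∃ l m, Nxt E k l ∧ Nxt E l m ∧ Le E (fun x => E x m) fun y => Sub E y k :=
  haveI : Hyp := ⟨H⟩
  main

end Pool.Agent.Results.MP_7292ca_lc.AllSingular
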